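import Mathlib

/-!
# Random quadratic iteration: definitions of MP_89b535_an

General superattracting centres: orbit of `0`, derivatives along it, and the three quantities
`Lam`, `W`, `kap` in the two sided estimate of the bifurcation radius.
-/

set_option autoImplicit false

namespace Pool.Agent.Helper85.RBF

open Complex

/-- `f_c(z) = z² + c`, as an element of the monoid of self-maps of `ℂ` under composition. -/
def quad (c : ℂ) : Function.End ℂ := fun z => z ^ 2 + c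

/-- The semigroup `G_{c,r}` generated, under composition, by the maps `f_{c'}` with
`|c' - c| ≤ r`. -/
def G (c : ℂ) (r : ℝ) : Subsemigroup (Function.End ℂ) :=
  Subsemigroup.closure {g | ∃ c' : ℂ, ‖c' - c‖ ≤ r ∧ g = quad c'}

/-- The set of total orbits of the critical point `0`: `{g(0) : g ∈ G_{c,r}}`. -/
def totalOrbit (c : ℂ) (r : ℝ) : Set ℂ := {z | ∃ g ∈ G c r, z = g 0}

/-- The bifurcation radius of a superattracting centre `c`:
`r_bif(c) = sup {r ≥ 0 : {g(0) : g ∈ G_{c,r}} is bounded}`. -/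
noncomputable def rbif (c : ℂ) : ℝ := sSup {r : ℝ | 0 ≤ r ∧ Bornology.IsBounded (totalOrbit c r)}

/-- The critical orbit `z_j = f_c^j(0)`. -/
def orb (c : ℂ) (j : ℕ) : ℂ := (fun z : ℂ => z ^ 2 + c)^[j] 0

/-- `Lam c j = |(f_c^{j-1})'(c)| = ∏_{0 < i < j} 2 |z_i|`. -/
noncomputable def Lam (c : ℂ) (j : ℕ) : ℝ := ∏ i ∈ Finset.Ico 1 j, (2 * ‖orb c i‖)

/-- `W c p = ∑_{j=1}^p 1 / Lam c j`. -/
noncomputable def W (c : ℂ) (p : ℕ) : ℝ := ∑ j ∈ Finset.Ico 1 (p + 1), (Lam c j)⁻¹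

/-- The error term `kap c p = ∑_{0 < j < p} Lam c j / (2 |z_j| (Lam c p)²)`. -/
noncomputable def kap (c : ℂ) (p : ℕ) : ℝ :=
  ∑ j ∈ Finset.Ico 1 p, Lam c j / (2 * ‖orb c j‖ * Lam c p ^ 2)

theorem orb_zero (c : ℂ) : orb c 0 = 0 := rfl

theorem orb_succ (c : ℂ) (j : ℕ) : orb c (j + 1) = orb c j ^ 2 + c := by
  unfold orb
  rw [Function.iterate_succ_apply']

theorem orb_one (c : ℂ) : orb c 1 = c := by
  rw [orb_succ, orb_zero]; ring

theorem Lam_one (c : ℂ) : Lam c 1 = 1 := by simp [Lam]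

theorem Lam_succ (c : ℂ) (j : ℕ) (hj : 1 ≤ j) : Lam c (j + 1) = 2 * ‖orb c j‖ * Lam c j := by
  unfold Lam
  rw [Finset.prod_Ico_succ_top hj, mul_comm]

theorem W_zero (c : ℂ) : W c 0 = 0 := by simp [W]

theorem W_succ (c : ℂ) (j : ℕ) : W c (j + 1) = W c j + (Lam c (j + 1))⁻¹ := by
  unfold W
  rw [Finset.sum_Ico_succ_top (by omega)]

theorem W_one (c : ℂ) : W c 1 = 1 := by
  rw [W_succ, W_zero, Lam_one]; norm_num

theorem orbit_base {c : ℂ} {r : ℝ} (c' : ℂ) (h : ‖c' - c‖ ≤ r) : c' ∈ totalOrbit c r := by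
  refine ⟨quad c', Subsemigroup.subset_closure ⟨c', h, rfl⟩, ?_⟩
  simp [quad]

theorem orbit_step {c : ℂ} {r : ℝ} (z c' : ℂ) (hz : z ∈ totalOrbit c r) (h : ‖c' - c‖ ≤ r) :
    z ^ 2 + c' ∈ totalOrbit c r := by
  obtain ⟨g, hg, rfl⟩ := hz
  exact ⟨quad c' * g, Subsemigroup.mul_mem _ (Subsemigroup.subset_closure ⟨c', h, rfl⟩) hg, rfl⟩

theorem orbit_ind {c : ℂ} {r : ℝ} (p : ℂ → Prop) (h1 : ∀ c' : ℂ, ‖c' - c‖ ≤ r → p c')
    (h2 : ∀ z c' : ℂ, p z → ‖c' - c‖ ≤ r → p (z ^ 2 + c')) :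
    ∀ z ∈ totalOrbit c r, p z := by
  have key : ∀ g ∈ G c r, p (g 0) ∧ ∀ z, p z → p (g z) := by
    intro g hg
    induction hg using Subsemigroup.closure_induction with
    | mem x hx =>
      obtain ⟨c', hc', rfl⟩ := hx
      refine ⟨?_, fun z hz => h2 z c' hz hc'⟩
      have : quad c' 0 = c' := by simp [quad]
      rw [this]; exact h1 c' hc'
    | mul x y hx hy ihx ihy =>
      exact ⟨ihx.2 _ ihy.1, fun z hz => ihx.2 _ (ihy.2 z hz)⟩
  rintro z ⟨g, hg, rfl⟩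
  exact (key g hg).1

/-- The reachable set, including the start. -/
def Reach (c : ℂ) (r : ℝ) : Set ℂ := {z | z = 0 ∨ z ∈ totalOrbit c r}

theorem reach_step {c : ℂ} {r : ℝ} {z w : ℂ} (hz : z ∈ Reach c r) (h : ‖w - (z ^ 2 + c)‖ ≤ r) :
    w ∈ Reach c r := by
  have e0 : w - z ^ 2 - c = w - (z ^ 2 + c) := by ring
  rcases hz with rfl | hz
  · right
    apply orbit_base
    simpa using h
  · right
    have := orbit_step z (w - z ^ 2) hz (by rw [e0]; exact h)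
    have e : z ^ 2 + (w - z ^ 2) = w := by ring
    rwa [e] at this

theorem totalOrbit_mono {c : ℂ} {r r' : ℝ} (h : r ≤ r') : totalOrbit c r ⊆ totalOrbit c r' := by
  intro z hz
  refine orbit_ind (fun z => z ∈ totalOrbit c r') (fun c' hc' => orbit_base c' (hc'.trans h))
    (fun w c' hw hc' => orbit_step w c' hw (hc'.trans h)) z hz

end Pool.Agent.Helper85.RBF
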