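import Pool.Agent.Helper85.RBF.Tip

/-!
# The real centres closest to -2: the limit of the bifurcation radius
-/

set_option autoImplicit false

namespace Pool.Agent.Helper85.RBF

open Complex Filter Topology

variable {c : ℕ → ℝ}

theorem pow_lim : Tendsto (fun p : ℕ => (p : ℝ) * (4 * Real.pi ^ 2 / 4 ^ p)) atTop (𝓝 0) := by
  have h := tendsto_self_mul_const_pow_of_lt_one (r := (1 / 4 : ℝ)) (by norm_num) (by norm_num)
  have h2 := h.const_mul (4 * Real.pi ^ 2)
  rw [mul_zero] at h2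
  refine h2.congr (fun p => ?_)
  rw [one_div, inv_pow]
  field_simp

theorem eps_lim (hc : ∀ p, 2 ≤ p → LR p (c p)) :
    Tendsto (fun p : ℕ => (p : ℝ) * (c p + 2)) atTop (𝓝 0) := by
  refine tendsto_of_tendsto_of_tendsto_of_le_of_le' tendsto_const_nhds pow_lim ?_ ?_
  · filter_upwards [eventually_ge_atTop 2] with p hp
    have := (hc p hp).h1
    have : 0 ≤ c p + 2 := by linarith
    positivity
  · filter_upwards [eventually_ge_atTop 2] with p hp
    have h := hc p hp
    exact mul_le_mul_of_nonneg_left (eps_bound hp h.h1 h.h2 h.h3 h.h4) (Nat.cast_nonneg p)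

theorem c_lim (hc : ∀ p, 2 ≤ p → LR p (c p)) : Tendsto c atTop (𝓝 (-2)) := by
  have h := eps_lim hc
  have h2 : Tendsto (fun p : ℕ => c p + 2) atTop (𝓝 0) := by
    refine tendsto_of_tendsto_of_tendsto_of_le_of_le' tendsto_const_nhds h ?_ ?_
    · filter_upwards [eventually_ge_atTop 2] with p hp
      have := (hc p hp).h1
      linarith
    · filter_upwards [eventually_ge_atTop 2] with p hp
      have h3 := (hc p hp).h1
      have h4 : (1 : ℝ) ≤ p := by exact_mod_cast (by omega : 1 ≤ p)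
      nlinarith
  have h3 := h2.sub_const 2
  simp only [add_sub_cancel_right, zero_sub] at h3
  exact h3

/-- `A_p = Λ_p sin(π/2^(p-1)) / 2^(p-2)` tends to 4 -/
theorem A_lim (hc : ∀ p, 2 ≤ p → LR p (c p)) :
    Tendsto (fun p : ℕ => Lam (c p) p * Real.sin (Real.pi / 2 ^ (p - 1)) / 2 ^ (p - 2)) atTop
      (𝓝 4) := by
  have hcl := c_lim hc
  have hup : Tendsto (fun p : ℕ => 2 * (-(c p))) atTop (𝓝 4) := by
    have := (hcl.neg).const_mul 2
    norm_num at this
    simpa using this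
  have hdn : Tendsto (fun p : ℕ => 2 * (-(c p)) * (1 - (p : ℝ) * (c p + 2))) atTop (𝓝 4) := by
    have := hup.mul ((eps_lim hc).const_sub 1)
    simpa using this
  refine tendsto_of_tendsto_of_tendsto_of_le_of_le' hdn hup ?_ ?_
  · filter_upwards [eventually_ge_atTop 2] with p hp
    have h := hc p hp
    have h2 := (lam_two_sided h).2
    rw [le_div_iff₀ (by positivity)]
    refine le_trans ?_ h2
    have hb : 1 - ((p - 2 : ℕ) : ℝ) * (c p + 2) ≤ (1 - (c p + 2)) ^ (p - 2) := by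
      have := one_add_mul_le_pow (a := -(c p + 2)) (by linarith [h.h2]) (p - 2)
      have e : 1 + -(c p + 2) = 1 - (c p + 2) := by ring
      rw [e] at this
      linarith
    have hb2 : 1 - (p : ℝ) * (c p + 2) ≤ 1 - ((p - 2 : ℕ) : ℝ) * (c p + 2) := by
      have h5 : ((p - 2 : ℕ) : ℝ) ≤ p := by exact_mod_cast Nat.sub_le p 2
      have h6 : 0 ≤ c p + 2 := by linarith [h.h1]
      nlinarith
    have h7 : 0 ≤ 2 * (-(c p)) * 2 ^ (p - 2) := by
      have : 0 ≤ -(c p) := by linarith [h.h2]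
      positivity
    calc 2 * -(c p) * (1 - (p : ℝ) * (c p + 2)) * 2 ^ (p - 2)
        = (2 * -(c p) * 2 ^ (p - 2)) * (1 - (p : ℝ) * (c p + 2)) := by ring
      _ ≤ (2 * -(c p) * 2 ^ (p - 2)) * (1 - (c p + 2)) ^ (p - 2) :=
          mul_le_mul_of_nonneg_left (hb2.trans hb) h7
  · filter_upwards [eventually_ge_atTop 2] with p hp
    have h2 := (lam_two_sided (hc p hp)).1
    rw [div_le_iff₀ (by positivity)]
    exact h2

theorem y_lim : Tendsto (fun k : ℕ => Real.pi / 2 ^ (k + 1)) atTop (𝓝 0) := by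
  have h := tendsto_pow_atTop_nhds_zero_of_lt_one (r := (1 / 2 : ℝ)) (by norm_num) (by norm_num)
  have h2 := h.const_mul (Real.pi / 2)
  rw [mul_zero] at h2
  refine h2.congr (fun p => ?_)
  rw [one_div, inv_pow, pow_succ]
  field_simp

theorem sin_lim : Tendsto (fun k : ℕ => Real.sin (Real.pi / 2 ^ (k + 1)) / (Real.pi / 2 ^ (k + 1)))
    atTop (𝓝 1) := by
  have h0 : Tendsto (fun k : ℕ => 1 - (Real.pi / 2 ^ (k + 1)) ^ 2 / 4) atTop (𝓝 1) := by
    have := ((y_lim.pow 2).div_const 4).const_sub 1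
    simpa using this
  refine tendsto_of_tendsto_of_tendsto_of_le_of_le' h0 tendsto_const_nhds ?_ ?_
  · have h1 : ∀ᶠ k : ℕ in atTop, Real.pi / 2 ^ (k + 1) < 1 := y_lim.eventually_lt_const (by norm_num)
    filter_upwards [h1] with k hk
    have hy : 0 < Real.pi / 2 ^ (k + 1) := by positivity
    have := Real.sin_gt_sub_cube hy
    rw [le_div_iff₀ hy]
    nlinarith
  · filter_upwards with k
    have hy : 0 < Real.pi / 2 ^ (k + 1) := by positivity
    rw [div_le_one hy]
    exact (Real.sin_lt hy).le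

theorem lam_lim (hc : ∀ p, 2 ≤ p → LR p (c p)) :
    Tendsto (fun p : ℕ => Lam (c p) p / 4 ^ p) atTop (𝓝 (1 / (2 * Real.pi))) := by
  rw [← tendsto_add_atTop_iff_nat 2]
  have hA := (tendsto_add_atTop_iff_nat 2).mpr (A_lim hc)
  have hs := sin_lim.inv₀ (by norm_num)
  have h := (hA.mul hs).mul_const (1 / (8 * Real.pi))
  have e : (4 : ℝ) * 1⁻¹ * (1 / (8 * Real.pi)) = 1 / (2 * Real.pi) := by
    field_simp; norm_num
  rw [e] at h
  refine h.congr (fun k => ?_)
  have e1 : k + 2 - 1 = k + 1 := by omega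
  have e2 : k + 2 - 2 = k := by omega
  rw [e1, e2]
  have hy : 0 < Real.pi / 2 ^ (k + 1) := by positivity
  have hypi : Real.pi / 2 ^ (k + 1) < Real.pi := by
    apply div_lt_self Real.pi_pos
    exact one_lt_pow₀ (by norm_num) (by omega)
  have hsp : 0 < Real.sin (Real.pi / 2 ^ (k + 1)) := Real.sin_pos_of_pos_of_lt_pi hy hypi
  have e3 : (4 : ℝ) ^ (k + 2) = 16 * (2 ^ k * 2 ^ k) := by
    rw [← mul_pow]; norm_num [pow_add]; ring
  have e4 : (2 : ℝ) ^ (k + 1) = 2 * 2 ^ k := by rw [pow_succ]; ring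
  rw [e3]
  rw [inv_div]
  field_simp
  rw [e4]
  ring

theorem lam_fix_lim (hc : ∀ p, 2 ≤ p → LR p (c p)) (i : ℕ) :
    Tendsto (fun p : ℕ => Lam (c p) (i + 1)) atTop (𝓝 (4 ^ i)) := by
  induction i with
  | zero => simp only [zero_add, Lam_one, pow_zero]; exact tendsto_const_nhds
  | succ i ih =>
    have h1 : ∀ p : ℕ, Lam (c p) (i + 1 + 1) = 2 * |ro (c p) (i + 1)| * Lam (c p) (i + 1) := by
      intro p
      rw [Lam_succ _ (i + 1) (by omega), norm_orb]
    have h2 : Tendsto (fun p : ℕ => ro (c p) (i + 1)) atTop (𝓝 (ro (-2) (i + 1))) :=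
      ((ro_cont (i + 1)).tendsto (-2)).comp (c_lim hc)
    have h3 : |ro (-2) (i + 1)| = 2 := by
      rcases i with _ | i
      · rw [zero_add, ro_one]; norm_num
      · have e : i + 1 + 1 = i + 2 := by ring
        rw [e, ro_neg_two]; norm_num
    have h4 := (h2.abs.const_mul 2).mul ih
    rw [h3] at h4
    have e : (2 : ℝ) * 2 * 4 ^ i = 4 ^ (i + 1) := by rw [pow_succ]; ring
    rw [e] at h4
    exact h4.congr (fun p => (h1 p).symm)

theorem W_eq (x : ℂ) (p : ℕ) : W x p = ∑ i ∈ Finset.range p, (Lam x (i + 1))⁻¹ := by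
  unfold W
  rw [Finset.sum_Ico_eq_sum_range]
  apply Finset.sum_congr
  · congr 1
  · intro i _
    rw [add_comm]

theorem W_lim (hc : ∀ p, 2 ≤ p → LR p (c p)) :
    Tendsto (fun p : ℕ => W (c p) p) atTop (𝓝 (4 / 3)) := by
  have hts : ∑' i : ℕ, ((1 / 4 : ℝ)) ^ i = 4 / 3 := by
    rw [tsum_geometric_of_lt_one (by norm_num) (by norm_num)]; norm_num
  have key := tendsto_tsum_of_dominated_convergence (𝓕 := (atTop : Filter ℕ))
    (f := fun (p : ℕ) (i : ℕ) => if i < p then (Lam (c p) (i + 1))⁻¹ else 0)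
    (g := fun i : ℕ => ((1 / 4 : ℝ)) ^ i) (bound := fun i : ℕ => ((1 / 2 : ℝ)) ^ i)
    (summable_geometric_of_lt_one (by norm_num) (by norm_num)) ?_ ?_
  · rw [hts] at key
    refine key.congr (fun p => ?_)
    rw [W_eq, tsum_eq_sum (s := Finset.range p)]
    · apply Finset.sum_congr rfl
      intro i hi
      rw [if_pos (Finset.mem_range.mp hi)]
    · intro i hi
      rw [if_neg]
      intro h
      exact hi (Finset.mem_range.mpr h)
  · intro i
    have h1 := (lam_fix_lim hc i).inv₀ (by positivity)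
    have h2 : Tendsto (fun p : ℕ => (Lam (c p) (i + 1))⁻¹) atTop (𝓝 ((1 / 4 : ℝ) ^ i)) := by
      rw [one_div, inv_pow]; exact h1
    refine h2.congr' ?_
    filter_upwards [eventually_gt_atTop i] with p hp
    rw [if_pos hp]
  · filter_upwards [eventually_ge_atTop 2] with p hp i
    split_ifs with hi
    · have h := hc p hp
      have h2 := h.lam_ge i (by omega)
      have h3 : (0 : ℝ) < 2 ^ i := by positivity
      rw [Real.norm_of_nonneg (by
        have : 0 < Lam (c p) (i + 1) := by linarith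
        positivity), one_div, inv_pow]
      exact inv_anti₀ h3 h2
    · simp

theorem kap_lim (hc : ∀ p, 2 ≤ p → LR p (c p)) :
    Tendsto (fun p : ℕ => kap (c p) p) atTop (𝓝 0) := by
  have h := tendsto_self_mul_const_pow_of_lt_one (r := (1 / 2 : ℝ)) (by norm_num) (by norm_num)
  refine tendsto_of_tendsto_of_tendsto_of_le_of_le' tendsto_const_nhds h ?_ ?_
  · filter_upwards [eventually_ge_atTop 2] with p hp
    rw [← kp_self]
    exact kp_nonneg (fun j hj hjp => (hc p hp).ne j hj hjp) (le_refl p)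
  · filter_upwards [eventually_ge_atTop 2] with p hp
    refine (hc p hp).kap_le.trans (le_of_eq ?_)
    rw [one_div, inv_pow]
    field_simp

theorem main_lim (hc : ∀ p, 2 ≤ p → LR p (c p)) :
    Tendsto (fun p : ℕ => 16 ^ p * rbif (c p)) atTop (𝓝 (3 * Real.pi ^ 2 / 4)) := by
  have hL := lam_lim hc
  have hW := W_lim hc
  have hk := kap_lim hc
  have hbase : Tendsto (fun p : ℕ => (4 * W (c p) p * (Lam (c p) p / 4 ^ p) ^ 2)⁻¹) atTop
      (𝓝 (3 * Real.pi ^ 2 / 4)) := by
    have h1 := ((hW.const_mul 4).mul (hL.pow 2)).inv₀ (by positivity)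
    have e : (4 * (4 / 3 : ℝ) * (1 / (2 * Real.pi)) ^ 2)⁻¹ = 3 * Real.pi ^ 2 / 4 := by
      field_simp; norm_num
    rw [e] at h1
    exact h1
  have hlo : Tendsto (fun p : ℕ => (1 + kap (c p) p)⁻¹ *
      (4 * W (c p) p * (Lam (c p) p / 4 ^ p) ^ 2)⁻¹) atTop (𝓝 (3 * Real.pi ^ 2 / 4)) := by
    have := ((hk.const_add 1).inv₀ (by norm_num)).mul hbase
    simpa using this
  refine tendsto_of_tendsto_of_tendsto_of_le_of_le' hlo hbase ?_ ?_
  · filter_upwards [eventually_ge_atTop 2] with p hp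
    have h := hc p hp
    have h0 : orb (c p) p = 0 := (orb_eq_zero_iff _ _).mpr h.h3
    have hLp : 0 < Lam (c p) p := Lam_pos (fun j hj hjp => h.ne j hj hjp) (le_refl p)
    have hWp : 0 < W (c p) p := W_pos (fun j hj hjp => h.ne j hj hjp) (le_refl p) (by omega)
    have hk0 : 0 ≤ kap (c p) p := by
      rw [← kp_self]; exact kp_nonneg (fun j hj hjp => h.ne j hj hjp) (le_refl p)
    have e : (16 : ℝ) ^ p = (4 ^ p) ^ 2 := by rw [← pow_mul, mul_comm, pow_mul]; norm_num
    have e2 : (1 + kap (c p) p)⁻¹ * (4 * W (c p) p * (Lam (c p) p / 4 ^ p) ^ 2)⁻¹ =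
        16 ^ p * (1 / (4 * W (c p) p * Lam (c p) p ^ 2 * (1 + kap (c p) p))) := by
      rw [e]
      field_simp
    rw [e2]
    exact mul_le_mul_of_nonneg_left
      (two_all (by omega) h0 (fun j hj hjp => h.ne j hj hjp)).1 (by positivity)
  · filter_upwards [eventually_ge_atTop 2] with p hp
    have h := hc p hp
    have h0 : orb (c p) p = 0 := (orb_eq_zero_iff _ _).mpr h.h3
    have hLp : 0 < Lam (c p) p := Lam_pos (fun j hj hjp => h.ne j hj hjp) (le_refl p)
    have hWp : 0 < W (c p) p := W_pos (fun j hj hjp => h.ne j hj hjp) (le_refl p) (by omega)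
    have e : (16 : ℝ) ^ p = (4 ^ p) ^ 2 := by rw [← pow_mul, mul_comm, pow_mul]; norm_num
    have e2 : (4 * W (c p) p * (Lam (c p) p / 4 ^ p) ^ 2)⁻¹ =
        16 ^ p * (1 / (4 * W (c p) p * Lam (c p) p ^ 2)) := by
      rw [e]
      field_simp
    rw [e2]
    exact mul_le_mul_of_nonneg_left
      (two_all (by omega) h0 (fun j hj hjp => h.ne j hj hjp)).2 (by positivity)

end Pool.Agent.Helper85.RBF
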