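import Pool.Agent.Helper85.RBF.Up

/-!
# The lower bound with `1 + κ`, for all superattracting centres
-/

set_option autoImplicit false

namespace Pool.Agent.Helper85.RBF

open Complex

theorem rc_bound {c : ℂ} {p : ℕ} (hz : ∀ j, 0 < j → j < p → orb c j ≠ 0) {r ϱ : ℝ}
    (hr : 0 ≤ r) (hfin : ϱ ^ 2 * (1 + kap c p) + r * W c p ≤ ϱ / Lam c p) (j : ℕ)
    (hj : j + 1 ≤ p) :
    0 ≤ ra c r ϱ j ∧
      ra c r ϱ j ≤ Lam c (j + 1) * (ϱ ^ 2 * (1 + kp c p (j + 1)) + r * W c (j + 1)) := by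
  have hL := Lam_pos hz (le_refl p)
  induction j with
  | zero =>
    constructor
    · simp only [ra]; positivity
    · simp only [zero_add, kp_one, Lam_one, W_one, ra]
      linarith
  | succ j ih =>
    obtain ⟨h1, h2⟩ := ih (by omega)
    have hn : 0 < ‖orb c (j + 1)‖ := norm_pos_iff.mpr (hz _ (by omega) (by omega))
    have hLj := Lam_pos hz (j := j + 1) (by omega)
    have hLj2 := Lam_pos hz (j := j + 1 + 1) (by omega)
    have k1 := kp_mono hz (i := j + 1) (j := p) (by omega) (le_refl p)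
    rw [kp_self] at k1
    have w1 := W_mono hz (i := j + 1) (j := p) (by omega) (le_refl p)
    have hks := kp_succ c p (j + 1) (by omega)
    have hLs := Lam_succ c (j + 1) (by omega)
    have hWs := W_succ c (j + 1)
    refine ⟨by simp only [ra]; positivity, ?_⟩
    have h3 : ra c r ϱ j ≤ Lam c (j + 1) * (ϱ / Lam c p) := by
      refine h2.trans (mul_le_mul_of_nonneg_left ?_ hLj.le)
      have := mul_le_mul_of_nonneg_left w1 hr
      have := mul_le_mul_of_nonneg_left k1 (sq_nonneg ϱ)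
      linarith
    have h4 : ra c r ϱ j ^ 2 ≤ (Lam c (j + 1) * (ϱ / Lam c p)) ^ 2 := pow_le_pow_left₀ h1 h3 2
    have e5 : Lam c (j + 1 + 1) * (ϱ ^ 2 * (1 + kp c p (j + 1 + 1)) + r * W c (j + 1 + 1)) =
        2 * ‖orb c (j + 1)‖ * (Lam c (j + 1) * (ϱ ^ 2 * (1 + kp c p (j + 1)) + r * W c (j + 1))) +
          (Lam c (j + 1) * (ϱ / Lam c p)) ^ 2 + r := by
      have e6 : Lam c (j + 1 + 1) * (Lam c (j + 1 + 1))⁻¹ = 1 := mul_inv_cancel₀ hLj2.ne'
      have e7 : Lam c (j + 1 + 1) * (ϱ ^ 2 *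
          (Lam c (j + 1) / (2 * ‖orb c (j + 1)‖ * Lam c p ^ 2))) =
          (Lam c (j + 1) * (ϱ / Lam c p)) ^ 2 := by
        rw [hLs]; field_simp
      rw [hWs, hks]
      calc Lam c (j + 1 + 1) * (ϱ ^ 2 * (1 + (kp c p (j + 1) +
            Lam c (j + 1) / (2 * ‖orb c (j + 1)‖ * Lam c p ^ 2))) +
            r * (W c (j + 1) + (Lam c (j + 1 + 1))⁻¹))
          = Lam c (j + 1 + 1) * (ϱ ^ 2 * (1 + kp c p (j + 1)) + r * W c (j + 1)) +
            Lam c (j + 1 + 1) * (ϱ ^ 2 *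
              (Lam c (j + 1) / (2 * ‖orb c (j + 1)‖ * Lam c p ^ 2))) +
            r * (Lam c (j + 1 + 1) * (Lam c (j + 1 + 1))⁻¹) := by ring
        _ = _ := by rw [e6, e7, hLs]; ring
    rw [e5]
    simp only [ra]
    have := mul_le_mul_of_nonneg_left h2 (by positivity : 0 ≤ 2 * ‖orb c (j + 1)‖)
    nlinarith

theorem bounded_all {c : ℂ} {p : ℕ} (hp : 1 ≤ p) (h0 : orb c p = 0)
    (hz : ∀ j, 0 < j → j < p → orb c j ≠ 0) :
    Bornology.IsBounded (totalOrbit c (1 / (4 * W c p * Lam c p ^ 2 * (1 + kap c p)))) := by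
  have hL := Lam_pos hz (le_refl p)
  have hW := W_pos hz (le_refl p) hp
  have k0 : 0 ≤ kap c p := by rw [← kp_self]; exact kp_nonneg hz (le_refl p)
  set r := 1 / (4 * W c p * Lam c p ^ 2 * (1 + kap c p)) with hr
  have hr0 : 0 ≤ r := by positivity
  set ϱ := 1 / (2 * Lam c p * (1 + kap c p)) with hϱ
  have hfin : ϱ ^ 2 * (1 + kap c p) + r * W c p ≤ ϱ / Lam c p := by
    rw [hr, hϱ]
    apply le_of_eq
    field_simp
    ring
  have hb := rc_bound hz hr0 hfin
  have hϱ0 : 0 < ϱ := by positivity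
  -- region
  have reg : ∀ z ∈ totalOrbit c r, ‖z‖ ≤ ϱ ∨ ∃ j, j + 1 < p ∧ ‖z - orb c (j + 1)‖ ≤ ra c r ϱ j := by
    have last : ra c r ϱ (p - 1) ≤ ϱ := by
      have h1 := (hb (p - 1) (by omega)).2
      have e : p - 1 + 1 = p := by omega
      rw [e, kp_self] at h1
      refine h1.trans ((mul_le_mul_of_nonneg_left hfin hL.le).trans (le_of_eq ?_))
      field_simp
    have fin : ∀ (z : ℂ) (j : ℕ), j + 1 ≤ p → ‖z - orb c (j + 1)‖ ≤ ra c r ϱ j →
        ‖z‖ ≤ ϱ ∨ ∃ j, j + 1 < p ∧ ‖z - orb c (j + 1)‖ ≤ ra c r ϱ j := by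
      intro z j hj h
      rcases Nat.lt_or_ge (j + 1) p with h1 | h1
      · exact Or.inr ⟨j, h1, h⟩
      · have : j = p - 1 := by omega
        subst this
        have e : p - 1 + 1 = p := by omega
        rw [e, h0, sub_zero] at h
        exact Or.inl (h.trans last)
    apply orbit_ind
    · intro c' hc'
      apply fin c' 0 (by omega)
      simp only [ra, zero_add, orb_one]
      have : 0 ≤ ϱ ^ 2 := by positivity
      linarith
    · intro z c' hzz hc'
      have hst : ‖(z ^ 2 + c') - (z ^ 2 + c)‖ ≤ r := by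
        have : (z ^ 2 + c') - (z ^ 2 + c) = c' - c := by ring
        rw [this]; exact hc'
      rcases hzz with h | ⟨j, hj, h⟩
      · apply fin _ 0 (by omega)
        have := disc_step (w := 0) (a := ϱ) (by simpa using h) hst
        simp only [ra, zero_add, orb_one]
        simp only [norm_zero, mul_zero, zero_add] at this
        have e : (0 : ℂ) ^ 2 + c = c := by ring
        rw [e] at this
        nlinarith
      · apply fin _ (j + 1) (by omega)
        have := disc_step h hst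
        rw [← orb_succ] at this
        simp only [ra]
        exact this
  rw [isBounded_iff_forall_norm_le]
  refine ⟨ϱ + ∑ j ∈ Finset.range p, (‖orb c (j + 1)‖ + |ra c r ϱ j|), ?_⟩
  intro z hzz
  have hs : 0 ≤ ∑ j ∈ Finset.range p, (‖orb c (j + 1)‖ + |ra c r ϱ j|) :=
    Finset.sum_nonneg (fun j _ => by positivity)
  rcases reg z hzz with h | ⟨j, hj, h⟩
  · linarith
  · have h1 : ‖orb c (j + 1)‖ + |ra c r ϱ j| ≤
        ∑ j ∈ Finset.range p, (‖orb c (j + 1)‖ + |ra c r ϱ j|) :=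
      Finset.single_le_sum (f := fun j => ‖orb c (j + 1)‖ + |ra c r ϱ j|)
        (fun j _ => by positivity) (Finset.mem_range.mpr (by omega))
    have h2 : ‖z‖ ≤ ‖z - orb c (j + 1)‖ + ‖orb c (j + 1)‖ := by
      have : z = (z - orb c (j + 1)) + orb c (j + 1) := by ring
      calc ‖z‖ = ‖(z - orb c (j + 1)) + orb c (j + 1)‖ := by rw [← this]
        _ ≤ _ := norm_add_le _ _
    have h3 := le_abs_self (ra c r ϱ j)
    linarith

/-- The two sided estimate. -/
theorem two_all {c : ℂ} {p : ℕ} (hp : 1 ≤ p) (h0 : orb c p = 0)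
    (hz : ∀ j, 0 < j → j < p → orb c j ≠ 0) :
    1 / (4 * W c p * Lam c p ^ 2 * (1 + kap c p)) ≤ rbif c ∧
      rbif c ≤ 1 / (4 * W c p * Lam c p ^ 2) := by
  have hL := Lam_pos hz (le_refl p)
  have hW := W_pos hz (le_refl p) hp
  have k0 : 0 ≤ kap c p := by rw [← kp_self]; exact kp_nonneg hz (le_refl p)
  refine ⟨le_csSup (rbif_bddAb c) ⟨by positivity, bounded_all hp h0 hz⟩, upper_all hp h0 hz⟩

end Pool.Agent.Helper85.RBF
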