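import Pool.Agent.Helper85.RBF.Defs

/-!
# Partial sums and the radii of the discs around the critical orbit
-/

set_option autoImplicit false

namespace Pool.Agent.Helper85.RBF

open Complex

theorem Lam_pos {c : ℂ} {p : ℕ} (hz : ∀ j, 0 < j → j < p → orb c j ≠ 0) {j : ℕ} (hj : j ≤ p) :
    0 < Lam c j := by
  unfold Lam
  apply Finset.prod_pos
  intro i hi
  rw [Finset.mem_Ico] at hi
  have := norm_pos_iff.mpr (hz i (by omega) (by omega))
  positivity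

theorem W_pos {c : ℂ} {p : ℕ} (hz : ∀ j, 0 < j → j < p → orb c j ≠ 0) {j : ℕ} (hj : j ≤ p)
    (hj1 : 1 ≤ j) : 0 < W c j := by
  unfold W
  apply Finset.sum_pos
  · intro i hi
    rw [Finset.mem_Ico] at hi
    exact inv_pos.mpr (Lam_pos hz (by omega))
  · exact ⟨1, by rw [Finset.mem_Ico]; omega⟩

/-- partial error sums -/
noncomputable def kp (c : ℂ) (p j : ℕ) : ℝ :=
  ∑ i ∈ Finset.Ico 1 j, Lam c i / (2 * ‖orb c i‖ * Lam c p ^ 2)

theorem kp_self (c : ℂ) (p : ℕ) : kp c p p = kap c p := rfl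

theorem kp_one (c : ℂ) (p : ℕ) : kp c p 1 = 0 := by simp [kp]

theorem kp_succ (c : ℂ) (p j : ℕ) (hj : 1 ≤ j) :
    kp c p (j + 1) = kp c p j + Lam c j / (2 * ‖orb c j‖ * Lam c p ^ 2) := by
  unfold kp
  rw [Finset.sum_Ico_succ_top hj]

theorem kp_nonneg {c : ℂ} {p : ℕ} (hz : ∀ j, 0 < j → j < p → orb c j ≠ 0) {j : ℕ} (hj : j ≤ p) :
    0 ≤ kp c p j := by
  unfold kp
  apply Finset.sum_nonneg
  intro i hi
  rw [Finset.mem_Ico] at hi
  have := Lam_pos hz (j := i) (by omega)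
  positivity

theorem kp_mono {c : ℂ} {p : ℕ} (hz : ∀ j, 0 < j → j < p → orb c j ≠ 0) {i j : ℕ} (hij : i ≤ j)
    (hj : j ≤ p) : kp c p i ≤ kp c p j := by
  unfold kp
  apply Finset.sum_le_sum_of_subset_of_nonneg
  · intro x hx
    rw [Finset.mem_Ico] at hx ⊢
    omega
  · intro x hx _
    rw [Finset.mem_Ico] at hx
    have := Lam_pos hz (j := x) (by omega)
    positivity

theorem W_mono {c : ℂ} {p : ℕ} (hz : ∀ j, 0 < j → j < p → orb c j ≠ 0) {i j : ℕ} (hij : i ≤ j)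
    (hj : j ≤ p) : W c i ≤ W c j := by
  unfold W
  apply Finset.sum_le_sum_of_subset_of_nonneg
  · intro x hx
    rw [Finset.mem_Ico] at hx ⊢
    omega
  · intro x hx _
    rw [Finset.mem_Ico] at hx
    exact (inv_pos.mpr (Lam_pos hz (by omega))).le

/-- the radii of the invariant discs, `a 0` is the radius at `z_1` -/
noncomputable def ra (c : ℂ) (r ϱ : ℝ) : ℕ → ℝ
  | 0 => ϱ ^ 2 + r
  | (j + 1) => ra c r ϱ j * (2 * ‖orb c (j + 1)‖ + ra c r ϱ j) + r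

theorem disc_step {c z z' w : ℂ} {r a : ℝ} (h : ‖z - w‖ ≤ a) (h' : ‖z' - (z ^ 2 + c)‖ ≤ r) :
    ‖z' - (w ^ 2 + c)‖ ≤ a * (2 * ‖w‖ + a) + r := by
  have ha : 0 ≤ a := (norm_nonneg _).trans h
  have e : z' - (w ^ 2 + c) = (z' - (z ^ 2 + c)) + (z - w) * (z + w) := by ring
  rw [e]
  have e2 : ‖z + w‖ ≤ a + 2 * ‖w‖ := by
    have : z + w = (z - w) + 2 * w := by ring
    rw [this]
    refine (norm_add_le _ _).trans ?_
    rw [norm_mul, Complex.norm_ofNat]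
    linarith
  refine (norm_add_le _ _).trans ?_
  rw [norm_mul]
  have : ‖z - w‖ * ‖z + w‖ ≤ a * (a + 2 * ‖w‖) := mul_le_mul h e2 (norm_nonneg _) ha
  linarith

end Pool.Agent.Helper85.RBF
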