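import Pool.Agent.Helper85.RBF.Low

/-!
# The real centres closest to -2: kneading data
-/

set_option autoImplicit false

namespace Pool.Agent.Helper85.RBF

open Complex

/-- the real critical orbit -/
def ro (x : ℝ) : ℕ → ℝ
  | 0 => 0
  | (j + 1) => ro x j ^ 2 + x

theorem orb_ofReal (x : ℝ) (j : ℕ) : orb (x : ℂ) j = ((ro x j : ℝ) : ℂ) := by
  induction j with
  | zero => simp [orb_zero, ro]
  | succ j ih => rw [orb_succ, ih]; simp [ro]

theorem orb_eq_zero_iff (x : ℝ) (j : ℕ) : orb (x : ℂ) j = 0 ↔ ro x j = 0 := by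
  rw [orb_ofReal]; exact Complex.ofReal_eq_zero

theorem ro_cont (j : ℕ) : Continuous (fun x => ro x j) := by
  induction j with
  | zero => simp only [ro]; exact continuous_const
  | succ j ih => simp only [ro]; exact (ih.pow 2).add continuous_id

theorem ro_one (x : ℝ) : ro x 1 = x := by simp [ro]

theorem ro_two (x : ℝ) : ro x 2 = x ^ 2 + x := by simp [ro]

theorem ro_left {x : ℝ} (hx : x ≤ -2) (j : ℕ) : -x ≤ ro x (j + 2) := by
  induction j with
  | zero => simp only [ro]; nlinarith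
  | succ j ih => simp only [ro] at ih ⊢; nlinarith

theorem ro_neg_two (j : ℕ) : ro (-2) (j + 2) = 2 := by
  induction j with
  | zero => simp only [ro]; norm_num
  | succ j ih =>
    have : ro (-2) (j + 1 + 2) = ro (-2) (j + 2) ^ 2 + (-2) := rfl
    rw [this, ih]; norm_num

theorem exists_smaller_root {y : ℝ} {j : ℕ} (hj : 2 ≤ j) (hy : -2 < y) (hy0 : y < 0)
    (h : ro y j = 0) : ∃ y', -2 < y' ∧ y' < y ∧ ro y' (j + 1) = 0 := by
  have h1 : ro y (j + 1) = y := by simp only [ro]; rw [h]; ring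
  have h2 : ro (-2) (j + 1) = 2 := by
    have := ro_neg_two (j - 1)
    have e : j - 1 + 2 = j + 1 := by omega
    rwa [e] at this
  have hiv := intermediate_value_Ioo' hy.le (ro_cont (j + 1)).continuousOn
  have hm : (0 : ℝ) ∈ Set.Ioo (ro y (j + 1)) (ro (-2) (j + 1)) := by
    rw [h1, h2]; exact ⟨hy0, by norm_num⟩
  obtain ⟨y', hy', hy'2⟩ := hiv hm
  exact ⟨y', hy'.1, hy'.2, hy'2⟩

theorem exists_smaller_root' {y : ℝ} {j : ℕ} (hj : 2 ≤ j) (hy : -2 < y) (hy0 : y < 0)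
    (h : ro y j = 0) (k : ℕ) : ∃ y', -2 < y' ∧ y' < y ∧ ro y' (j + k + 1) = 0 := by
  induction k with
  | zero => exact exists_smaller_root hj hy hy0 h
  | succ k ih =>
    obtain ⟨y1, h1, h2, h3⟩ := ih
    obtain ⟨y2, h4, h5, h6⟩ := exists_smaller_root (j := j + k + 1) (by omega) h1 (by linarith) h3
    exact ⟨y2, h4, by linarith, h6⟩

theorem exists_root (p : ℕ) (hp : 2 ≤ p) : ∃ y, -2 < y ∧ y ≤ -1 ∧ ro y p = 0 := by
  obtain ⟨k, rfl⟩ := Nat.exists_eq_add_of_le hp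
  rcases k with _ | k
  · exact ⟨-1, by norm_num, le_refl _, by simp only [ro]; norm_num⟩
  · obtain ⟨y, h1, h2, h3⟩ := exists_smaller_root' (j := 2) (le_refl 2) (by norm_num : (-2 : ℝ) < -1)
      (by norm_num) (by simp only [ro]; norm_num) k
    exact ⟨y, h1, h2.le, h3⟩

theorem root_gt {p : ℕ} (hp : 2 ≤ p) {y : ℝ} (h : ro y p = 0) : -2 < y := by
  by_contra hc
  push Not at hc
  have := ro_left hc (p - 2)
  have e : p - 2 + 2 = p := by omega
  rw [e, h] at this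
  linarith

theorem exists_least (p : ℕ) (hp : 2 ≤ p) : ∃ x, IsLeast {x : ℝ | ro x p = 0} x := by
  have hne : {x : ℝ | ro x p = 0}.Nonempty := by
    obtain ⟨y, _, _, h⟩ := exists_root p hp
    exact ⟨y, h⟩
  have hbb : BddBelow {x : ℝ | ro x p = 0} := ⟨-2, fun y hy => (root_gt hp hy).le⟩
  have hcl : IsClosed {x : ℝ | ro x p = 0} := isClosed_singleton.preimage (ro_cont p)
  exact ⟨_, hcl.csInf_mem hne hbb, fun y hy => csInf_le hbb hy⟩

/-- the kneading data of the least root -/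
theorem least_data {p : ℕ} (hp : 2 ≤ p) {x : ℝ} (hx : IsLeast {x : ℝ | ro x p = 0} x) :
    -2 < x ∧ x ≤ -1 ∧ ro x p = 0 ∧ ∀ j, 2 ≤ j → j < p → 0 < ro x j := by
  have h1 := root_gt hp hx.1
  have h2 : x ≤ -1 := by
    obtain ⟨y, _, h, h'⟩ := exists_root p hp
    exact (hx.2 h').trans h
  refine ⟨h1, h2, hx.1, ?_⟩
  intro j hj hjp
  by_contra hc
  push Not at hc
  have h3 : ro (-2) j = 2 := by
    have := ro_neg_two (j - 2)
    have e : j - 2 + 2 = j := by omega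
    rwa [e] at this
  have hiv := intermediate_value_Icc' h1.le (ro_cont j).continuousOn
  have hm : (0 : ℝ) ∈ Set.Icc (ro x j) (ro (-2) j) := by
    rw [h3]; exact ⟨hc, by norm_num⟩
  obtain ⟨y, hy, hy2⟩ := hiv hm
  have hy3 : ro y j = 0 := hy2
  have hy4 := root_gt hj hy3
  obtain ⟨y', h4, h5, h6⟩ := exists_smaller_root' hj hy4 (by linarith [hy.2]) hy3 (p - j - 1)
  have e : j + (p - j - 1) + 1 = p := by omega
  rw [e] at h6
  have := hx.2 h6
  linarith [hy.2]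

theorem ro_abs_le {x : ℝ} (h1 : -2 < x) (h2 : x ≤ -1) (j : ℕ) : |ro x j| ≤ -x := by
  induction j with
  | zero => simp only [ro, abs_zero]; linarith
  | succ j ih =>
    simp only [ro]
    have h3 : ro x j ^ 2 ≤ (-x) ^ 2 := by
      rw [← sq_abs]; exact pow_le_pow_left₀ (abs_nonneg _) ih 2
    rw [abs_le]
    constructor
    · nlinarith [sq_nonneg (ro x j)]
    · nlinarith

theorem ro_ge_one {p : ℕ} {x : ℝ} (h2 : x ≤ -1) (h3 : ro x p = 0)
    (h4 : ∀ j, 2 ≤ j → j < p → 0 < ro x j) {j : ℕ} (hj : 2 ≤ j) (hjp : j < p) : 1 ≤ ro x j := by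
  have h5 := h4 j hj hjp
  have h6 : 0 ≤ ro x (j + 1) := by
    rcases Nat.lt_or_ge (j + 1) p with h | h
    · exact (h4 (j + 1) (by omega) h).le
    · have : j + 1 = p := by omega
      rw [this, h3]
  simp only [ro] at h6
  nlinarith

theorem ro_abs_ge {p : ℕ} {x : ℝ} (h2 : x ≤ -1) (h3 : ro x p = 0)
    (h4 : ∀ j, 2 ≤ j → j < p → 0 < ro x j) {j : ℕ} (hj : 1 ≤ j) (hjp : j < p) : 1 ≤ |ro x j| := by
  rcases Nat.lt_or_ge 1 j with h | h
  · exact (ro_ge_one h2 h3 h4 h hjp).trans (le_abs_self _)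
  · have : j = 1 := by omega
    subst this
    rw [ro_one, abs_of_nonpos (by linarith)]; linarith

/-- `Y m = 2 cos (π / 2^(m+1))` -/
noncomputable def Y (m : ℕ) : ℝ := 2 * Real.cos (Real.pi / 2 ^ (m + 1))

theorem Y_zero : Y 0 = 0 := by simp [Y]

theorem Y_sq (m : ℕ) : Y (m + 1) ^ 2 = 2 + Y m := by
  unfold Y
  have h : Real.pi / 2 ^ (m + 1) = 2 * (Real.pi / 2 ^ (m + 1 + 1)) := by
    rw [pow_succ 2 (m + 1)]; field_simp
  rw [h, Real.cos_two_mul]; ring

theorem Y_nonneg (m : ℕ) : 0 ≤ Y m := by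
  unfold Y
  have h1 : (0 : ℝ) ≤ Real.pi / 2 ^ (m + 1) := by positivity
  have h2 : Real.pi / 2 ^ (m + 1) ≤ Real.pi / 2 := by
    apply div_le_div_of_nonneg_left Real.pi_pos.le (by norm_num)
    calc (2 : ℝ) = 2 ^ 1 := by norm_num
      _ ≤ 2 ^ (m + 1) := pow_le_pow_right₀ (by norm_num) (by omega)
  have := Real.cos_nonneg_of_neg_pi_div_two_le_of_le (by linarith [Real.pi_pos]) h2
  linarith

theorem Y_succ_ge (m : ℕ) : 1 ≤ Y (m + 1) := by
  have h1 := Y_sq m
  have h2 := Y_nonneg m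
  have h3 := Y_nonneg (m + 1)
  nlinarith

theorem compare {p : ℕ} {x : ℝ} (h1 : -2 < x) (h2 : x ≤ -1) (h3 : ro x p = 0)
    (h4 : ∀ j, 2 ≤ j → j < p → 0 < ro x j) (m : ℕ) (hm : m + 2 ≤ p) :
    0 ≤ Y m - ro x (p - m) ∧ Y m - ro x (p - m) ≤ x + 2 := by
  induction m with
  | zero => simp only [Nat.sub_zero, h3, Y_zero]; constructor <;> linarith
  | succ m ih =>
    obtain ⟨i1, i2⟩ := ih (by omega)
    have e : p - m = (p - (m + 1)) + 1 := by omega
    have hr : ro x (p - m) = ro x (p - (m + 1)) ^ 2 + x := by rw [e]; rfl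
    have hy := Y_sq m
    have hy1 := Y_succ_ge m
    have hx1 := ro_ge_one h2 h3 h4 (j := p - (m + 1)) (by omega) (by omega)
    set a := Y (m + 1)
    set b := ro x (p - (m + 1))
    have hab : (a - b) * (a + b) = (Y m - ro x (p - m)) + (x + 2) := by
      rw [hr]
      have : (a - b) * (a + b) = a ^ 2 - b ^ 2 := by ring
      rw [this, hy]; ring
    constructor
    · by_contra hc
      push Not at hc
      nlinarith
    · by_contra hc
      push Not at hc
      nlinarith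

/-- `c_p + 2 ≤ 4 π² / 4^p` -/
theorem eps_bound {p : ℕ} (hp : 2 ≤ p) {x : ℝ} (h1 : -2 < x) (h2 : x ≤ -1) (h3 : ro x p = 0)
    (h4 : ∀ j, 2 ≤ j → j < p → 0 < ro x j) : x + 2 ≤ 4 * Real.pi ^ 2 / 4 ^ p := by
  have hc := (compare h1 h2 h3 h4 (p - 2) (by omega)).2
  have e : p - (p - 2) = 2 := by omega
  rw [e, ro_two] at hc
  have hy : 2 - Y (p - 2) ≤ 4 * Real.pi ^ 2 / 4 ^ p := by
    unfold Y
    have e2 : p - 2 + 1 = p - 1 := by omega
    rw [e2]
    have hcos := Real.one_sub_sq_div_two_le_cos (x := Real.pi / 2 ^ (p - 1))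
    have e3 : (Real.pi / 2 ^ (p - 1)) ^ 2 = 4 * Real.pi ^ 2 / 4 ^ p := by
      have e4 : (4 : ℝ) ^ p = 4 * (2 ^ (p - 1)) ^ 2 := by
        have : p = (p - 1) + 1 := by omega
        conv_lhs => rw [this, pow_succ]
        rw [← pow_mul, mul_comm (p - 1) 2, pow_mul]; norm_num; ring
      rw [e4, div_pow]; field_simp
    rw [e3] at hcos
    linarith
  nlinarith

end Pool.Agent.Helper85.RBF
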