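import Pool.Agent.Helper85.RBF.Real

/-!
# The real centres closest to -2: asymptotics
-/

set_option autoImplicit false

namespace Pool.Agent.Helper85.RBF

open Complex Filter Topology

theorem norm_orb (x : ℝ) (j : ℕ) : ‖orb (x : ℂ) j‖ = |ro x j| := by
  rw [orb_ofReal, Complex.norm_real, Real.norm_eq_abs]

/-- the bundle of facts about the least root -/
structure LR (p : ℕ) (x : ℝ) : Prop where
  hp : 2 ≤ p
  h1 : -2 < x
  h2 : x ≤ -1
  h3 : ro x p = 0
  h4 : ∀ j, 2 ≤ j → j < p → 0 < ro x j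

theorem LR.of_isLeast {p : ℕ} (hp : 2 ≤ p) {x : ℝ} (hx : IsLeast {x : ℝ | ro x p = 0} x) :
    LR p x := by
  obtain ⟨h1, h2, h3, h4⟩ := least_data hp hx
  exact ⟨hp, h1, h2, h3, h4⟩

theorem LR.abs_ge {p : ℕ} {x : ℝ} (h : LR p x) {j : ℕ} (hj : 1 ≤ j) (hjp : j < p) :
    1 ≤ |ro x j| := ro_abs_ge h.h2 h.h3 h.h4 hj hjp

theorem LR.abs_le {p : ℕ} {x : ℝ} (h : LR p x) (j : ℕ) : |ro x j| ≤ 2 :=
  (ro_abs_le h.h1 h.h2 j).trans (by linarith [h.h1])

theorem LR.ne {p : ℕ} {x : ℝ} (h : LR p x) (j : ℕ) (hj : 0 < j) (hjp : j < p) :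
    orb (x : ℂ) j ≠ 0 := by
  intro h0
  have := h.abs_ge hj hjp
  rw [orb_eq_zero_iff] at h0
  rw [h0, abs_zero] at this
  linarith

theorem LR.lam_ge {p : ℕ} {x : ℝ} (h : LR p x) (j : ℕ) (hj : j + 1 ≤ p) :
    (2 : ℝ) ^ j ≤ Lam x (j + 1) := by
  induction j with
  | zero => simp [Lam_one]
  | succ j ih =>
    rw [Lam_succ _ (j + 1) (by omega), norm_orb, pow_succ]
    have h1 := h.abs_ge (j := j + 1) (by omega) (by omega)
    have h2 := ih (by omega)
    have h3 : (0 : ℝ) < 2 ^ j := by positivity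
    nlinarith

theorem LR.lam_mono {p : ℕ} {x : ℝ} (h : LR p x) (j : ℕ) (hj : j + 1 ≤ p) :
    Lam x (j + 1) ≤ Lam x p := by
  have : ∀ k, j + 1 + k ≤ p → Lam x (j + 1) ≤ Lam x (j + 1 + k) := by
    intro k
    induction k with
    | zero => intro _; exact le_refl _
    | succ k ih =>
      intro hk
      have h1 := ih (by omega)
      have e : j + 1 + (k + 1) = (j + 1 + k) + 1 := by ring
      rw [e, Lam_succ _ (j + 1 + k) (by omega), norm_orb]
      have h2 := h.abs_ge (j := j + 1 + k) (by omega) (by omega)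
      have h3 : 0 < Lam (x : ℂ) (j + 1 + k) := Lam_pos (fun i hi hip => h.ne i hi hip) (by omega)
      nlinarith
  have := this (p - (j + 1)) (by omega)
  have e : j + 1 + (p - (j + 1)) = p := by omega
  rwa [e] at this

theorem LR.kap_le {p : ℕ} {x : ℝ} (h : LR p x) : kap x p ≤ p / 2 ^ p := by
  have hL : 0 < Lam (x : ℂ) p := Lam_pos (fun i hi hip => h.ne i hi hip) (le_refl p)
  have hp := h.hp
  have term : ∀ j ∈ Finset.Ico 1 p, Lam (x : ℂ) j / (2 * ‖orb (x : ℂ) j‖ * Lam x p ^ 2) ≤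
      1 / (2 * Lam x p) := by
    intro j hj
    rw [Finset.mem_Ico] at hj
    have h1 := h.abs_ge hj.1 hj.2
    have h2 := h.lam_mono (j - 1) (by omega)
    have e : j - 1 + 1 = j := by omega
    rw [e] at h2
    rw [norm_orb, div_le_div_iff₀ (by positivity) (by positivity)]
    have h3 : Lam (x : ℂ) p ≤ |ro x j| * Lam x p := by nlinarith
    calc Lam (x : ℂ) j * (2 * Lam x p) ≤ Lam x p * (2 * (|ro x j| * Lam x p)) := by
          apply mul_le_mul h2 (by linarith) (by positivity) hL.le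
      _ = 1 * (2 * |ro x j| * Lam x p ^ 2) := by ring
  have h5 : kap x p ≤ ∑ _j ∈ Finset.Ico 1 p, 1 / (2 * Lam (x : ℂ) p) := Finset.sum_le_sum term
  rw [Finset.sum_const, Nat.card_Ico, nsmul_eq_mul] at h5
  have h6 := h.lam_ge (p - 1) (by omega)
  have e : p - 1 + 1 = p := by omega
  rw [e] at h6
  have h7 : (2 : ℝ) ^ p = 2 * 2 ^ (p - 1) := by
    conv_lhs => rw [← e, pow_succ]
    ring
  refine h5.trans ?_
  rw [mul_one_div]
  have h8 : ((p - 1 : ℕ) : ℝ) ≤ p := by exact_mod_cast Nat.sub_le p 1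
  calc ((p - 1 : ℕ) : ℝ) / (2 * Lam x p) ≤ p / (2 * Lam x p) :=
        div_le_div_of_nonneg_right h8 (by positivity)
    _ ≤ p / 2 ^ p := by
        apply div_le_div_of_nonneg_left (by positivity) (by positivity)
        rw [h7]; linarith

/-- Viete's product -/
theorem viete (M : ℕ) :
    (∏ m ∈ Finset.Ico 1 (M + 1), 2 * Y m) * Real.sin (Real.pi / 2 ^ (M + 1)) = 2 ^ M := by
  induction M with
  | zero => simp
  | succ M ih =>
    rw [Finset.prod_Ico_succ_top (by omega)]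
    have h : Real.pi / 2 ^ (M + 1) = 2 * (Real.pi / 2 ^ (M + 1 + 1)) := by
      rw [pow_succ 2 (M + 1)]; field_simp
    rw [h, Real.sin_two_mul] at ih
    have e : (2 : ℝ) ^ (M + 1) = 2 * 2 ^ M := by rw [pow_succ]; ring
    rw [e, ← ih]
    have e2 : Y (M + 1) = 2 * Real.cos (Real.pi / 2 ^ (M + 1 + 1)) := rfl
    rw [e2]
    ring

theorem lam_split {p : ℕ} {x : ℝ} (h : LR p x) :
    Lam x p = 2 * (-x) * ∏ m ∈ Finset.Ico 1 (p - 1), 2 * ro x (p - m) := by
  have hp := h.hp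
  unfold Lam
  rw [Finset.prod_eq_prod_Ico_succ_bot (by omega)]
  rw [norm_orb, ro_one, abs_of_nonpos (by linarith [h.h2])]
  congr 1
  have hr := Finset.prod_Ico_reflect (fun i => 2 * ro x i) 1 (m := p - 1) (n := p) (by omega)
  have e1 : p + 1 - (p - 1) = 1 + 1 := by omega
  have e2 : p + 1 - 1 = p := by omega
  rw [e1, e2] at hr
  rw [hr]
  apply Finset.prod_congr rfl
  intro i hi
  rw [Finset.mem_Ico] at hi
  rw [norm_orb, abs_of_pos (h.h4 i (by omega) hi.2)]

theorem lam_two_sided {p : ℕ} {x : ℝ} (h : LR p x) :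
    Lam x p * Real.sin (Real.pi / 2 ^ (p - 1)) ≤ 2 * (-x) * 2 ^ (p - 2) ∧
      2 * (-x) * 2 ^ (p - 2) * (1 - (x + 2)) ^ (p - 2) ≤
        Lam x p * Real.sin (Real.pi / 2 ^ (p - 1)) := by
  have hp := h.hp
  have hv := viete (p - 2)
  have e : p - 2 + 1 = p - 1 := by omega
  rw [e] at hv
  have hs : 0 ≤ Real.sin (Real.pi / 2 ^ (p - 1)) := by
    apply Real.sin_nonneg_of_nonneg_of_le_pi (by positivity)
    apply div_le_self Real.pi_pos.le
    exact one_le_pow₀ (by norm_num)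
  have hx := h.h2
  have hx1 := h.h1
  have up : ∏ m ∈ Finset.Ico 1 (p - 1), 2 * ro x (p - m) ≤ ∏ m ∈ Finset.Ico 1 (p - 1), 2 * Y m := by
    apply Finset.prod_le_prod
    · intro m hm
      rw [Finset.mem_Ico] at hm
      have := h.h4 (p - m) (by omega) (by omega)
      linarith
    · intro m hm
      rw [Finset.mem_Ico] at hm
      have := (compare h.h1 h.h2 h.h3 h.h4 m (by omega)).1
      linarith
  have dn : (∏ m ∈ Finset.Ico 1 (p - 1), 2 * Y m) * (1 - (x + 2)) ^ (p - 2) ≤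
      ∏ m ∈ Finset.Ico 1 (p - 1), 2 * ro x (p - m) := by
    have hc : (1 - (x + 2)) ^ (p - 2) = ∏ _m ∈ Finset.Ico 1 (p - 1), (1 - (x + 2)) := by
      rw [Finset.prod_const, Nat.card_Ico]
      congr 1
    rw [hc, ← Finset.prod_mul_distrib]
    apply Finset.prod_le_prod
    · intro m hm
      rw [Finset.mem_Ico] at hm
      have hy := Y_nonneg m
      have : 0 ≤ 1 - (x + 2) := by linarith
      positivity
    · intro m hm
      rw [Finset.mem_Ico] at hm
      have h5 := (compare h.h1 h.h2 h.h3 h.h4 m (by omega)).2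
      have h6 := Y_succ_ge (m - 1)
      have e3 : m - 1 + 1 = m := by omega
      rw [e3] at h6
      nlinarith
  rw [lam_split h]
  have hnn : 0 ≤ 2 * (-x) := by linarith
  constructor
  · calc 2 * -x * (∏ m ∈ Finset.Ico 1 (p - 1), 2 * ro x (p - m)) * Real.sin (Real.pi / 2 ^ (p - 1))
        ≤ 2 * -x * (∏ m ∈ Finset.Ico 1 (p - 1), 2 * Y m) * Real.sin (Real.pi / 2 ^ (p - 1)) := by
          apply mul_le_mul_of_nonneg_right _ hs
          exact mul_le_mul_of_nonneg_left up hnn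
      _ = 2 * -x * 2 ^ (p - 2) := by rw [mul_assoc, hv]
  · calc 2 * -x * 2 ^ (p - 2) * (1 - (x + 2)) ^ (p - 2)
        = 2 * -x * ((∏ m ∈ Finset.Ico 1 (p - 1), 2 * Y m) * (1 - (x + 2)) ^ (p - 2)) *
            Real.sin (Real.pi / 2 ^ (p - 1)) := by rw [← hv]; ring
      _ ≤ _ := by
          apply mul_le_mul_of_nonneg_right _ hs
          exact mul_le_mul_of_nonneg_left dn hnn

end Pool.Agent.Helper85.RBF
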