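import Pool.Agent.Helper85.RBF.Lower

/-!
# The upper bound, for all superattracting centres

Polynomial noise: if `ζ^k Q(ζ)` lies in the reachable set for `|ζ| ≤ 1`, then so does
`ζ^(2k) Q'(ζ)` for some `Q'` with `|Q'(0)| = Λ (r W + |Q(0)|²)`. So `r W Λ² > 1/4` contradicts
the Cauchy estimate.
-/

set_option autoImplicit false

namespace Pool.Agent.Helper85.RBF

open Complex

/-- the complex derivative along the critical orbit -/
noncomputable def lamc (c : ℂ) (j : ℕ) : ℂ := ∏ i ∈ Finset.Ico 1 j, (2 * orb c i)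

theorem lamc_one (c : ℂ) : lamc c 1 = 1 := by simp [lamc]

theorem lamc_succ (c : ℂ) (j : ℕ) (hj : 1 ≤ j) :
    lamc c (j + 1) = 2 * orb c j * lamc c j := by
  unfold lamc
  rw [Finset.prod_Ico_succ_top hj, mul_comm]

theorem norm_lamc (c : ℂ) (j : ℕ) : ‖lamc c j‖ = Lam c j := by
  unfold lamc Lam
  rw [norm_prod]
  apply Finset.prod_congr rfl
  intro i _
  rw [norm_mul, Complex.norm_ofNat]

/-- A unimodular number aligned with the square of `q`. -/
theorem exists_phase (q : ℂ) {x : ℝ} (hx : 0 ≤ x) :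
    ∃ s : ℂ, ‖s‖ = 1 ∧ ‖q ^ 2 + x * s‖ = ‖q‖ ^ 2 + x := by
  by_cases hq : q = 0
  · refine ⟨1, by simp, ?_⟩
    subst hq
    simp [abs_of_nonneg hx]
  · have hn : (‖q‖ : ℂ) ≠ 0 := by
      rw [Complex.ofReal_ne_zero]; exact norm_ne_zero_iff.mpr hq
    refine ⟨q ^ 2 / ‖q‖ ^ 2, ?_, ?_⟩
    · rw [norm_div, norm_pow, norm_pow, Complex.norm_real, norm_norm]
      field_simp
    · have e : q ^ 2 + x * (q ^ 2 / (‖q‖ : ℂ) ^ 2) =
          q ^ 2 / (‖q‖ : ℂ) ^ 2 * ((‖q‖ ^ 2 + x : ℝ) : ℂ) := by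
        push_cast
        field_simp
      rw [e, norm_mul, Complex.norm_real, norm_div, norm_pow, norm_pow, Complex.norm_real,
        norm_norm, Real.norm_of_nonneg (by positivity)]
      have : ‖q‖ ≠ 0 := norm_ne_zero_iff.mpr hq
      field_simp

/-- The inner induction. -/
theorem inner {c : ℂ} {p : ℕ} (hz : ∀ j, 0 < j → j < p → orb c j ≠ 0) {r : ℝ} (hr : 0 ≤ r)
    {k : ℕ} (hk : 1 ≤ k) {Q : ℂ → ℂ} (hQ : Differentiable ℂ Q)
    (hQr : ∀ ζ : ℂ, ‖ζ‖ ≤ 1 → ζ ^ k * Q ζ ∈ Reach c r) {s : ℂ} (hs : ‖s‖ = 1) (j : ℕ)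
    (hj : j + 1 ≤ p) :
    ∃ R : ℂ → ℂ, Differentiable ℂ R ∧ R 0 = lamc c (j + 1) * (Q 0 ^ 2 + (r * W c (j + 1) : ℝ) * s) ∧
      ∀ ζ : ℂ, ‖ζ‖ ≤ 1 → orb c (j + 1) + ζ ^ (2 * k) * R ζ ∈ Reach c r := by
  have hpow : ∀ ζ : ℂ, ‖ζ‖ ≤ 1 → ‖ζ ^ (2 * k)‖ ≤ 1 := by
    intro ζ hζ
    rw [norm_pow]
    exact pow_le_one₀ (norm_nonneg _) hζ
  induction j with
  | zero =>
    refine ⟨fun ζ => Q ζ ^ 2 + r * s, (hQ.pow 2).add_const _, ?_, ?_⟩
    · simp only [zero_add, lamc_one, W_one, mul_one, one_mul]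
    · intro ζ hζ
      refine reach_step (hQr ζ hζ) ?_
      rw [zero_add, orb_one]
      have e : c + ζ ^ (2 * k) * (Q ζ ^ 2 + r * s) - ((ζ ^ k * Q ζ) ^ 2 + c) =
          (r : ℂ) * (s * ζ ^ (2 * k)) := by
        rw [mul_pow, ← pow_mul, mul_comm k 2]; ring
      rw [e, norm_mul, norm_mul, hs, one_mul, Complex.norm_real, Real.norm_of_nonneg hr]
      have := mul_le_mul_of_nonneg_left (hpow ζ hζ) hr
      linarith
  | succ j ih =>
    obtain ⟨R, hR, hR0, hRr⟩ := ih (by omega)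
    have hL := Lam_pos hz (j := j + 1 + 1) (by omega)
    have hn : ‖lamc c (j + 1 + 1)‖ = Lam c (j + 1 + 1) := norm_lamc _ _
    obtain ⟨u, hu, hu1⟩ : ∃ u : ℂ, u = lamc c (j + 1 + 1) * ((Lam c (j + 1 + 1))⁻¹ : ℝ) ∧
        ‖u‖ = 1 := by
      refine ⟨_, rfl, ?_⟩
      rw [norm_mul, hn, Complex.norm_real, Real.norm_of_nonneg (by positivity)]
      exact mul_inv_cancel₀ hL.ne'
    refine ⟨fun ζ => 2 * orb c (j + 1) * R ζ + ζ ^ (2 * k) * R ζ ^ 2 + r * s * u, ?_, ?_, ?_⟩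
    · exact (((hR.const_mul _).add ((differentiable_id.pow (2 * k)).mul (hR.pow 2))).add_const _)
    · simp only
      rw [hR0, zero_pow (by omega), zero_mul, add_zero, hu, lamc_succ c (j + 1) (by omega),
        W_succ c (j + 1)]
      push_cast
      ring
    · intro ζ hζ
      refine reach_step (hRr ζ hζ) ?_
      rw [orb_succ c (j + 1)]
      have e : orb c (j + 1) ^ 2 + c +
          ζ ^ (2 * k) * (2 * orb c (j + 1) * R ζ + ζ ^ (2 * k) * R ζ ^ 2 + r * s * u) -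
          ((orb c (j + 1) + ζ ^ (2 * k) * R ζ) ^ 2 + c) = (r : ℂ) * (s * (u * ζ ^ (2 * k))) := by
        ring
      rw [e, norm_mul, norm_mul, norm_mul, hs, hu1, one_mul, one_mul, Complex.norm_real,
        Real.norm_of_nonneg hr]
      have := mul_le_mul_of_nonneg_left (hpow ζ hζ) hr
      linarith

/-- The growing sequence. -/
noncomputable def grow (L x : ℝ) : ℕ → ℝ
  | 0 => 0
  | (n + 1) => L * (grow L x n ^ 2 + x)

theorem grow_ge {L x : ℝ} (hL : 0 < L) (n : ℕ) :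
    n * (L * x - 1 / (4 * L)) ≤ grow L x n := by
  induction n with
  | zero => simp [grow]
  | succ n ih =>
    have h1 : grow L x n - 1 / (4 * L) ≤ L * grow L x n ^ 2 := by
      have h2 : 0 ≤ L * (grow L x n - 1 / (2 * L)) ^ 2 := by positivity
      have e : L * (grow L x n - 1 / (2 * L)) ^ 2 =
          L * grow L x n ^ 2 - grow L x n + 1 / (4 * L) := by
        field_simp; ring
      linarith
    simp only [grow]
    push_cast
    nlinarith

theorem outer {c : ℂ} {p : ℕ} (hp : 1 ≤ p) (h0 : orb c p = 0)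
    (hz : ∀ j, 0 < j → j < p → orb c j ≠ 0) {r : ℝ} (hr : 0 ≤ r) (n : ℕ) :
    ∃ Q : ℂ → ℂ, Differentiable ℂ Q ∧ ‖Q 0‖ = grow (Lam c p) (r * W c p) n ∧
      ∀ ζ : ℂ, ‖ζ‖ ≤ 1 → ζ ^ (2 ^ n) * Q ζ ∈ Reach c r := by
  induction n with
  | zero =>
    refine ⟨fun _ => 0, differentiable_const 0, by simp [grow], ?_⟩
    intro ζ _
    left
    simp
  | succ n ih =>
    obtain ⟨Q, hQ, hQ0, hQr⟩ := ih
    have hW := W_pos hz (le_refl p) hp
    obtain ⟨s, hs, hs2⟩ := exists_phase (Q 0) (x := r * W c p) (by positivity)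
    obtain ⟨R, hR, hR0, hRr⟩ := inner hz hr (k := 2 ^ n) Nat.one_le_two_pow hQ hQr hs (p - 1)
      (by omega)
    have e : p - 1 + 1 = p := by omega
    rw [e] at hR0 hRr
    refine ⟨R, hR, ?_, ?_⟩
    · rw [hR0, norm_mul, norm_lamc, hs2, hQ0]
      rfl
    · intro ζ hζ
      have := hRr ζ hζ
      rw [h0, zero_add] at this
      rwa [pow_succ, mul_comm (2 ^ n) 2]

theorem unb {c : ℂ} {p : ℕ} (hp : 1 ≤ p) (h0 : orb c p = 0)
    (hz : ∀ j, 0 < j → j < p → orb c j ≠ 0) {r : ℝ}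
    (hr : 1 / (4 * W c p * Lam c p ^ 2) < r) : ¬ Bornology.IsBounded (totalOrbit c r) := by
  intro hb
  have hL := Lam_pos hz (le_refl p)
  have hW := W_pos hz (le_refl p) hp
  have hr0 : 0 ≤ r := le_trans (by positivity) hr.le
  obtain ⟨M, hM⟩ := isBounded_iff_forall_norm_le.mp hb
  have hM2 : ∀ z ∈ Reach c r, ‖z‖ ≤ max M 0 := by
    intro z hzz
    rcases hzz with h | h
    · rw [h]; simp
    · exact (hM z h).trans (le_max_left _ _)
  have hbd : ∀ n : ℕ, grow (Lam c p) (r * W c p) n ≤ max M 0 := by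
    intro n
    obtain ⟨Q, hQ, hQ0, hQr⟩ := outer hp h0 hz hr0 n
    rw [← hQ0]
    apply Complex.norm_le_of_forall_mem_frontier_norm_le (U := Metric.ball 0 1)
      Metric.isBounded_ball hQ.diffContOnCl
    · intro ζ hζ
      rw [frontier_ball 0 one_ne_zero, mem_sphere_zero_iff_norm] at hζ
      have h2 := hM2 _ (hQr ζ hζ.le)
      rw [norm_mul, norm_pow, hζ, one_pow, one_mul] at h2
      exact h2
    · exact subset_closure (Metric.mem_ball_self one_pos)
  have hδ : 0 < Lam c p * (r * W c p) - 1 / (4 * Lam c p) := by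
    rw [div_lt_iff₀ (by positivity)] at hr
    rw [sub_pos, div_lt_iff₀ (by positivity)]
    nlinarith
  obtain ⟨n, hn⟩ := exists_nat_gt (max M 0 / (Lam c p * (r * W c p) - 1 / (4 * Lam c p)))
  rw [div_lt_iff₀ hδ] at hn
  have h1 := grow_ge (x := r * W c p) hL n
  have h2 := hbd n
  linarith

/-- For large noise the total orbit is unbounded. -/
theorem unb_large {c : ℂ} {r : ℝ} (hr : 3 + ‖c‖ ≤ r) :
    ¬ Bornology.IsBounded (totalOrbit c r) := by
  intro hb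
  obtain ⟨M, hM⟩ := isBounded_iff_forall_norm_le.mp hb
  have h3 : ‖(3 : ℂ) - c‖ ≤ r := by
    refine (norm_sub_le _ _).trans ?_
    rw [Complex.norm_ofNat]; exact hr
  have h : ∀ n : ℕ, ∃ x : ℝ, ((x : ℂ) ∈ totalOrbit c r) ∧ (n : ℝ) + 3 ≤ x := by
    intro n
    induction n with
    | zero => exact ⟨3, by simpa using orbit_base (3 : ℂ) h3, by simp⟩
    | succ n ih =>
      obtain ⟨x, hx, hx2⟩ := ih
      refine ⟨x ^ 2 + 3, ?_, ?_⟩
      · have := orbit_step (x : ℂ) 3 hx h3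
        push_cast
        exact this
      · push_cast
        have : (0 : ℝ) ≤ n := Nat.cast_nonneg n
        nlinarith
  obtain ⟨n, hn⟩ := exists_nat_gt M
  obtain ⟨x, hx, hx2⟩ := h n
  have := hM _ hx
  rw [Complex.norm_real] at this
  have h4 := le_abs_self x
  rw [Real.norm_eq_abs] at this
  linarith

theorem rbif_bddAb (c : ℂ) :
    BddAbove {r : ℝ | 0 ≤ r ∧ Bornology.IsBounded (totalOrbit c r)} := by
  refine ⟨3 + ‖c‖, ?_⟩
  rintro r ⟨_, hb⟩
  by_contra hc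
  push Not at hc
  exact unb_large hc.le hb

theorem upper_all {c : ℂ} {p : ℕ} (hp : 1 ≤ p) (h0 : orb c p = 0)
    (hz : ∀ j, 0 < j → j < p → orb c j ≠ 0) : rbif c ≤ 1 / (4 * W c p * Lam c p ^ 2) := by
  have hL := Lam_pos hz (le_refl p)
  have hW := W_pos hz (le_refl p) hp
  unfold rbif
  apply Real.sSup_le
  · rintro r ⟨_, hb⟩
    by_contra hc
    push Not at hc
    exact unb hp h0 hz hc hb
  · positivity

end Pool.Agent.Helper85.RBF
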